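import Mathlib
import Pool.Agent.Q3.Spec.Quartic

/-!
# MP_b81a64_nt: an algebraic integer `α > 1` with a non-closed set of values `limsup ‖ξ αⁿ‖`
-/

set_option autoImplicit false

namespace Pool.Agent.Results.MP_b81a64_nt.NotClosed

open Filter Topology Polynomial

/-- Distance to the nearest integer. -/
noncomputable def dist1 (x : ℝ) : ℝ := |x - (round x : ℝ)|

/-- The set `S(α)` of the values `limsup ‖ξ αⁿ‖`, `ξ` real. -/
def S (α : ℝ) : Set ℝ :=
  {v | ∃ ξ : ℝ, limsup (fun n : ℕ => dist1 (ξ * α ^ n)) atTop = v}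

/-- The root `α > 1` of `X⁴ - X³ - X² - X + 1`, an algebraic integer, has a set `S(α)` which is dense
in `[0,1/2]` and not closed. -/
theorem result : ∃ α : ℝ, 1 < α ∧ α ^ 4 - α ^ 3 - α ^ 2 - α + 1 = 0 ∧ IsIntegral ℤ α ∧
    Set.Icc (0 : ℝ) (1 / 2) ⊆ closure (S α) ∧
    (∃ t : ℝ, t ∉ S α ∧ ∃ u : ℕ → ℝ, (∀ j, u j ∈ S α) ∧ Tendsto u atTop (𝓝 t)) ∧
    ¬ IsClosed (S α) := by
  obtain ⟨α, hS, hmin⟩ := Q3.Spec.exists_salem
  have hroot : α ^ 4 - α ^ 3 - α ^ 2 - α + 1 = 0 := by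
    have := minpoly.aeval ℚ α
    rw [hmin, aeval_map_algebraMap] at this
    simpa [Q3.Spec.P4] using this
  have hdense : Set.Icc (0 : ℝ) (1 / 2) ⊆ closure (S α) := by
    rw [← closure_Ioo (by norm_num : (0 : ℝ) ≠ 1 / 2)]
    apply closure_minimal _ isClosed_closure
    intro x hx
    exact Q3.Spec.salem_dense α hS x hx.1 hx.2
  obtain ⟨η, hη, hcl, hne⟩ := Q3.Spec.salem_not_closed α hS
  change η ∈ closure (S α) at hcl
  change η ∉ S α at hne
  refine ⟨α, hS.one_lt, hroot, hS.integral, hdense, ?_, ?_⟩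
  · obtain ⟨u, hu, hlim⟩ := mem_closure_iff_seq_limit.mp hcl
    exact ⟨η, hne, u, hu, hlim⟩
  · intro h
    rw [h.closure_eq] at hcl
    exact hne hcl

end Pool.Agent.Results.MP_b81a64_nt.NotClosed
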